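import Pool.Agent.N874.PM.Stm

/-!
# Automorphisms permute the primes; every prime lies over a prime

Project PM of helper874, parts PM/SIG and PM/LIE (helper55).
-/

set_option autoImplicit false
set_option linter.all false

open Polynomial IsDedekindDomain WithZero
open Pool.Agent.N874.PP
open scoped Classical

namespace Pool.Agent.N55.PM

section comap

variable {O : Type} [CommRing O] [IsDedekindDomain O]

/-- The prime `φ ⁻¹ 𝔓`. -/
def cmp (φ : O ≃+* O) (𝔓 : HeightOneSpectrum O) : HeightOneSpectrum O where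
  asIdeal := Ideal.comap φ 𝔓.asIdeal
  isPrime := by
    haveI := 𝔓.isPrime
    exact Ideal.comap_isPrime φ 𝔓.asIdeal
  ne_bot := by
    intro h
    apply 𝔓.ne_bot
    rw [eq_bot_iff]
    intro x hx
    have : φ.symm x ∈ Ideal.comap φ 𝔓.asIdeal := by
      rw [Ideal.mem_comap, RingEquiv.apply_symm_apply]
      exact hx
    rw [h, Ideal.mem_bot] at this
    rw [Ideal.mem_bot]
    have h2 := congrArg φ this
    rwa [RingEquiv.apply_symm_apply, map_zero] at h2

theorem mem_pow (φ : O ≃+* O) (I : Ideal O) (n : ℕ) (z : O) :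
    z ∈ (Ideal.comap φ I) ^ n ↔ φ z ∈ I ^ n := by
  have e : Ideal.comap φ I = Ideal.map φ.symm I := (Ideal.map_symm φ).symm
  rw [e, ← Ideal.map_pow, Ideal.map_symm φ, Ideal.mem_comap]

theorem int_eq (φ : O ≃+* O) (𝔓 : HeightOneSpectrum O) (z : O) :
    (cmp φ 𝔓).intValuation z = 𝔓.intValuation (φ z) := by
  by_cases hz : z = 0
  · rw [hz, map_zero, map_zero, map_zero]
  have hz' : φ z ≠ 0 := by
    rwa [Ne, map_eq_zero_iff φ φ.injective]
  apply le_antisymm
  · rw [𝔓.intValuation_eq_exp_neg_multiplicity hz', HeightOneSpectrum.intValuation_le_pow_iff_mem]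
    change z ∈ (Ideal.comap φ 𝔓.asIdeal) ^ _
    rw [mem_pow, ← HeightOneSpectrum.intValuation_le_pow_iff_mem,
      𝔓.intValuation_eq_exp_neg_multiplicity hz']
  · rw [(cmp φ 𝔓).intValuation_eq_exp_neg_multiplicity hz,
      HeightOneSpectrum.intValuation_le_pow_iff_mem, ← mem_pow]
    change z ∈ (cmp φ 𝔓).asIdeal ^ _
    rw [← HeightOneSpectrum.intValuation_le_pow_iff_mem,
      (cmp φ 𝔓).intValuation_eq_exp_neg_multiplicity hz]

end comap

theorem sig : Pool.Agent.N874.PM.S_SIG := by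
  intro k F' O' _ _ _ _ _ _ _ _ _ _ σ 𝔓
  have hi : ∀ (τ : F' ≃ₐ[k[X]] F') (z : O'), IsIntegral k[X] (τ (algebraMap O' F' z)) := by
    intro τ z
    exact ((IsIntegralClosure.isIntegral k[X] F' z).algebraMap).map τ.toAlgHom
  have hinj : Function.Injective (algebraMap O' F') :=
    IsIntegralClosure.algebraMap_injective O' k[X] F'
  let f : (F' ≃ₐ[k[X]] F') → O' → O' := fun τ z => IsIntegralClosure.mk' O' _ (hi τ z)
  have hf : ∀ τ z, algebraMap O' F' (f τ z) = τ (algebraMap O' F' z) := fun τ z =>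
    IsIntegralClosure.algebraMap_mk' O' _ (hi τ z)
  let φ : O' ≃+* O' :=
    { toFun := f σ
      invFun := f σ.symm
      left_inv := fun z => hinj (by rw [hf, hf, AlgEquiv.symm_apply_apply])
      right_inv := fun z => hinj (by rw [hf, hf, AlgEquiv.apply_symm_apply])
      map_mul' := fun x y => hinj (by rw [map_mul, hf, hf, hf, map_mul, map_mul])
      map_add' := fun x y => hinj (by rw [map_add, hf, hf, hf, map_add, map_add]) }
  have hφ : ∀ z, algebraMap O' F' (φ z) = σ (algebraMap O' F' z) := hf σ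
  refine ⟨cmp φ 𝔓, ?_, ?_⟩
  · intro x
    obtain ⟨a, b, hb, rfl⟩ := IsFractionRing.div_surjective (A := O') x
    rw [map_div₀ σ, ← hφ, ← hφ, map_div₀, map_div₀, HeightOneSpectrum.valuation_of_algebraMap,
      HeightOneSpectrum.valuation_of_algebraMap, HeightOneSpectrum.valuation_of_algebraMap,
      HeightOneSpectrum.valuation_of_algebraMap, int_eq, int_eq]
  · intro P
    unfold Ov
    change algebraMap k[X] O' P ∈ Ideal.comap φ 𝔓.asIdeal ↔ _
    rw [Ideal.mem_comap]
    have : φ (algebraMap k[X] O' P) = algebraMap k[X] O' P := by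
      apply hinj
      rw [hφ, ← IsScalarTower.algebraMap_apply, AlgEquiv.commutes]
    rw [this]

theorem lie : Pool.Agent.N874.PM.S_LIE := by
  intro k F F' O O' _ _ _ _ _ _ _ _ _ _ _ _ _ _ _ _ _ _ _ _ _ 𝔓'
  have hi : ∀ z : O, IsIntegral k[X] (algebraMap F F' (algebraMap O F z)) := by
    intro z
    exact ((IsIntegralClosure.isIntegral k[X] F z).algebraMap).algebraMap
  have hinj : Function.Injective (algebraMap O' F') :=
    IsIntegralClosure.algebraMap_injective O' k[X] F'
  let f : O → O' := fun z => IsIntegralClosure.mk' O' _ (hi z)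
  have hf : ∀ z, algebraMap O' F' (f z) = algebraMap F F' (algebraMap O F z) := fun z =>
    IsIntegralClosure.algebraMap_mk' O' _ (hi z)
  let φ : O →+* O' :=
    { toFun := f
      map_one' := hinj (by rw [hf, map_one, map_one, map_one])
      map_mul' := fun x y => hinj (by rw [map_mul, hf, hf, hf, map_mul, map_mul])
      map_zero' := hinj (by rw [hf, map_zero, map_zero, map_zero])
      map_add' := fun x y => hinj (by rw [map_add, hf, hf, hf, map_add, map_add]) }
  have hφ : ∀ z, algebraMap O' F' (φ z) = algebraMap F F' (algebraMap O F z) := hf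
  have hφP : ∀ P : k[X], φ (algebraMap k[X] O P) = algebraMap k[X] O' P := by
    intro P
    apply hinj
    rw [hφ, ← IsScalarTower.algebraMap_apply k[X] O F, ← IsScalarTower.algebraMap_apply k[X] F F',
      ← IsScalarTower.algebraMap_apply k[X] O' F']
  -- a nonzero element of `k[X]` in the prime
  have hq : ∃ q : k[X], algebraMap k[X] O' q ≠ 0 ∧ algebraMap k[X] O' q ∈ 𝔓'.asIdeal := by
    obtain ⟨z, hz, hz0⟩ := Submodule.exists_mem_ne_zero_of_ne_bot 𝔓'.ne_bot
    have h1 : IsIntegral (⊥ : Subalgebra k[X] O') z :=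
      (IsIntegralClosure.isIntegral k[X] F' z).tower_top
    have h2 := Ideal.comap_ne_bot_of_integral_mem (I := 𝔓'.asIdeal) hz0 hz h1
    obtain ⟨⟨a, ha⟩, ha1, ha0⟩ := Submodule.exists_mem_ne_zero_of_ne_bot h2
    obtain ⟨q, rfl⟩ := Algebra.mem_bot.1 ha
    refine ⟨q, ?_, ha1⟩
    intro h0
    exact ha0 (Subtype.ext h0)
  obtain ⟨q, hq0, hq1⟩ := hq
  have hp : (Ideal.comap φ 𝔓'.asIdeal).IsPrime := by
    haveI := 𝔓'.isPrime
    exact Ideal.comap_isPrime φ 𝔓'.asIdeal
  let 𝔓 : HeightOneSpectrum O :=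
    { asIdeal := Ideal.comap φ 𝔓'.asIdeal
      isPrime := hp
      ne_bot := by
        intro h
        have h1 : algebraMap k[X] O q ∈ Ideal.comap φ 𝔓'.asIdeal := by
          rw [Ideal.mem_comap, hφP]
          exact hq1
        rw [h, Ideal.mem_bot] at h1
        apply hq0
        rw [← hφP, h1, map_zero] }
  have hmem : ∀ z : O, z ∈ 𝔓.asIdeal ↔ φ z ∈ 𝔓'.asIdeal := fun z => Iff.rfl
  -- values of fractions
  have key : ∀ (x : F) (n d : O), d ∉ 𝔓.asIdeal → x * algebraMap O F d = algebraMap O F n →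
      𝔓'.valuation F' (algebraMap F F' x) = 𝔓'.intValuation (φ n) := by
    intro x n d hd h
    have h1 : 𝔓'.intValuation (φ d) = 1 := by
      rw [HeightOneSpectrum.intValuation_eq_one_iff]
      exact fun h2 => hd ((hmem d).2 h2)
    have h2 : 𝔓'.valuation F' (algebraMap F F' x) * 𝔓'.intValuation (φ d) =
        𝔓'.intValuation (φ n) := by
      have a1 : 𝔓'.valuation F' (algebraMap O' F' (φ d)) = 𝔓'.intValuation (φ d) :=
        HeightOneSpectrum.valuation_of_algebraMap _ _
      have a2 : 𝔓'.valuation F' (algebraMap O' F' (φ n)) = 𝔓'.intValuation (φ n) :=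
        HeightOneSpectrum.valuation_of_algebraMap _ _
      rw [← a1, ← a2, hφ, hφ, ← map_mul, ← map_mul, h]
    rwa [h1, mul_one] at h2
  refine ⟨𝔓, ⟨?_, ?_⟩, ?_⟩
  · intro x hx
    obtain ⟨n, d, h⟩ := 𝔓.exists_primeCompl_mul_eq_of_integer x hx
    rw [key x n d d.2 h]
    exact 𝔓'.intValuation_le_one _
  · intro x hx
    obtain ⟨n, d, h⟩ := 𝔓.exists_primeCompl_mul_eq_of_integer x hx.le
    have a1 : 𝔓.valuation F (algebraMap O F n) < 1 ↔ n ∈ 𝔓.asIdeal :=
      HeightOneSpectrum.valuation_lt_one_iff_mem (K := F) 𝔓 n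
    rw [key x n d d.2 h, HeightOneSpectrum.intValuation_lt_one_iff_mem, ← hmem, ← a1, ← h, map_mul]
    refine lt_of_le_of_lt ?_ hx
    have h3 := mul_le_mul' (le_refl (𝔓.valuation F x)) (𝔓.valuation_le_one (K := F) (d : O))
    rwa [mul_one] at h3
  · intro P
    unfold Ov
    rw [hmem, hφP]

end Pool.Agent.N55.PM
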